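import Mathlib
import Pool.Agent.H85.BMDist
import Pool.Agent.H85.OdellMain

/-!
A negative answer to Odell's question. Over the real or complex scalars there is an infinite
dimensional separable Banach space `X` (the 2-convexified modified Tsirelson space) such that any
two Banach spaces isomorphic to `X` whose Banach-Mazur distance is `1` are isometric.
-/

namespace Pool.Agent.Results.MP_a65952_an.OdellNegative

open Pool.Agent.H85.Odell

universe u v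

theorem result : ∀ (𝕜 : Type) [RCLike 𝕜],
    ∃ (X : Type) (_ : NormedAddCommGroup X) (_ : NormedSpace 𝕜 X),
      CompleteSpace X ∧ TopologicalSpace.SeparableSpace X ∧ ¬ FiniteDimensional 𝕜 X ∧
      ∀ (Y : Type u) (Z : Type v) [NormedAddCommGroup Y] [NormedSpace 𝕜 Y] [CompleteSpace Y]
        [NormedAddCommGroup Z] [NormedSpace 𝕜 Z] [CompleteSpace Z],
        Nonempty (Y ≃L[𝕜] X) → Nonempty (Z ≃L[𝕜] X) → bmDist 𝕜 Y Z = 1 →
          Nonempty (Y ≃ₗᵢ[𝕜] Z) := by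
  intro 𝕜 _
  refine ⟨X 𝕜, inferInstance, inferInstance, inferInstance, inferInstance,
    not_finiteDimensional_X, ?_⟩
  intro Y Z _ _ _ _ _ _ ⟨JY⟩ ⟨JZ⟩ hd
  refine isometric_of_almost JY JZ (fun t ht => ?_)
  have hlt : bmDist 𝕜 Y Z < Real.exp t := by
    rw [hd]; exact Real.one_lt_exp_iff.2 ht
  have hne : {r : ℝ | ∃ T : Y ≃L[𝕜] Z,
      r = ‖(T : Y →L[𝕜] Z)‖ * ‖(T.symm : Z →L[𝕜] Y)‖}.Nonempty :=
    ⟨_, JY.trans JZ.symm, rfl⟩
  obtain ⟨r, ⟨T, rfl⟩, hr⟩ := exists_lt_of_csInf_lt hne hlt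
  have hY : Nontrivial Y := by
    by_contra hY
    rw [not_nontrivial_iff_subsingleton] at hY
    apply not_finiteDimensional_X (𝕜 := 𝕜)
    exact JY.toLinearEquiv.finiteDimensional
  obtain ⟨y₀, hy₀⟩ := exists_ne (0 : Y)
  have hTpos : 0 < ‖(T : Y →L[𝕜] Z)‖ := by
    rw [norm_pos_iff]
    intro h
    apply hy₀
    apply T.injective
    have : (T : Y →L[𝕜] Z) y₀ = 0 := by rw [h]; rfl
    rw [map_zero]; exact this
  set A : ℝ := ‖(T : Y →L[𝕜] Z)‖ with hA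
  set B : ℝ := ‖(T.symm : Z →L[𝕜] Y)‖ with hB
  have hc : ((A⁻¹ : ℝ) : 𝕜) ≠ 0 := by
    have := (inv_pos.2 hTpos).ne'
    exact_mod_cast this
  let c : 𝕜ˣ := Units.mk0 _ hc
  let S : Y ≃L[𝕜] Z := T.trans (ContinuousLinearEquiv.smulLeft c)
  have hS : ∀ y, ‖S y‖ = A⁻¹ * ‖T y‖ := by
    intro y
    change ‖((A⁻¹ : ℝ) : 𝕜) • T y‖ = _
    rw [norm_smul, RCLike.norm_ofReal, abs_of_pos (inv_pos.2 hTpos)]
  refine ⟨S, fun y => ?_, fun y => ?_⟩
  · rw [hS]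
    have h1 : ‖T y‖ ≤ A * ‖y‖ := (T : Y →L[𝕜] Z).le_opNorm y
    calc A⁻¹ * ‖T y‖ ≤ A⁻¹ * (A * ‖y‖) := by gcongr
      _ = 1 * ‖y‖ := by rw [← mul_assoc, inv_mul_cancel₀ hTpos.ne']
      _ ≤ Real.exp t * ‖y‖ := by
          gcongr
          exact Real.one_le_exp ht.le
  · rw [hS]
    have h1 : ‖y‖ ≤ B * ‖T y‖ := by
      have := (T.symm : Z →L[𝕜] Y).le_opNorm (T y)
      simpa using this
    calc ‖y‖ ≤ B * ‖T y‖ := h1
      _ = (A * B) * (A⁻¹ * ‖T y‖) := by field_simp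
      _ ≤ Real.exp t * (A⁻¹ * ‖T y‖) := by
          gcongr

end Pool.Agent.Results.MP_a65952_an.OdellNegative
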